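import Pool.Agent.U644.GD.Core

/-!
# `L²`-Betti numbers of compact aspherical manifolds above the middle: an asymptotic form

Products of compact aspherical manifolds with boundary are such manifolds (the product of two
manifolds with boundary is a topological manifold with boundary). If `b_i(M₀) ≠ 0` for some
`i > n₀ / 2`, `n₀ = dim M₀`, then `M₀^k × [0,1]^l × S`, with `S` the surface of genus two and
`l < n₀`, has a Betti number `b_j ≠ 0` with `j ≥ (1/2 + ε) n` in its dimension `n = k n₀ + l + 2`,
where `ε = 1 / (4 n₀)` and `k > 2 n₀`; and it has coverings of all degrees. So in every large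
dimension `n` the numbers `b_j`, `j ≥ (1/2 + ε) n`, are not bounded by `η size + C` for all `η`.
-/

set_option autoImplicit false

namespace Pool.Agent.Results.MP_8fe54c_gt.AsymptoticVanishing

open Pool.Agent.U644.GD

/-- The interval, with `b₀ > 0`; vanishing above the dimension. -/
structure BoundaryFacts (A : Data) : Prop where
  interval : ∃ I, A.dim I = 1 ∧ 0 < A.betti I 0
  above : ∀ X i, A.dim X < i → A.betti X i = 0

/-- Let `D` be any infinite set of dimensions. The `L²`-Betti numbers of all compact aspherical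
manifolds vanish above the middle dimension if and only if for all `ε > 0` and `N` there is `n ∈ D`,
`n ≥ N`, such that for every `η > 0` there is `C` with `b_i(M) ≤ η size(M) + C` for all compact
aspherical `n`-manifolds `M` and all `i ≥ (1/2 + ε) n`. -/
theorem result (A : Data) (h : Facts A) (hb : BoundaryFacts A) (D : Set ℕ) (hD : D.Infinite) :
    (∀ X i, A.dim X < 2 * i → A.betti X i = 0) ↔
    (∀ ε : ℝ, 0 < ε → ∀ N : ℕ, ∃ n ∈ D, N ≤ n ∧ ∀ η : ℝ, 0 < η → ∃ C : ℝ,
      ∀ X, A.dim X = n → ∀ i : ℕ, (1 / 2 + ε) * n ≤ (i : ℝ) →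
        A.betti X i ≤ η * A.size X + C) := by
  constructor
  · intro hs ε hε N
    obtain ⟨n, hn, hNn⟩ := hD.exists_gt N
    refine ⟨n, hn, hNn.le, fun η hη => ⟨0, fun X hX i hi => ?_⟩⟩
    have hlt : A.dim X < 2 * i := by
      rw [hX]
      have h0 : (0 : ℝ) < n := by
        have : 0 < n := by omega
        exact_mod_cast this
      have h1 : (n : ℝ) < 2 * i := by nlinarith
      exact_mod_cast h1
    rw [hs X i hlt]
    have := h.size_nonneg X
    positivity
  · intro ha X i hi
    by_contra hne
    have hpos : 0 < A.betti X i := lt_of_le_of_ne (h.betti_nonneg X i) (Ne.symm hne)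
    set m := A.dim X with hm
    have hm0 : 0 < m := by
      by_contra h0
      have h1 : m = 0 := by omega
      exact hne (hb.above X i (by omega))
    have hmr : (0 : ℝ) < m := by exact_mod_cast hm0
    obtain ⟨S, hS1, hS2, hS3⟩ := h.surface
    obtain ⟨I, hI1, hI2⟩ := hb.interval
    obtain ⟨n, -, hn, hall⟩ := ha (1 / (4 * m)) (by positivity) (m * (2 * m + 1) + 2)
    -- `n = k m + l + 2`
    set k := (n - 2) / m with hk
    set l := (n - 2) % m with hl
    have hlm : l < m := Nat.mod_lt _ hm0
    have hkl : m * k + l = n - 2 := Nat.div_add_mod _ _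
    have hk1 : 2 * m + 1 ≤ k := by
      rw [hk, Nat.le_div_iff_mul_le hm0]
      have : (2 * m + 1) * m = m * (2 * m + 1) := mul_comm _ _
      omega
    obtain ⟨Q₁, q1, q2⟩ := times h hpos hpos (k - 1)
    obtain ⟨Q, q3, q4⟩ := times h q2 hI2 l
    obtain ⟨k', hk'⟩ : ∃ k', k = k' + 1 := ⟨k - 1, by omega⟩
    have e1 : k - 1 = k' := by omega
    rw [e1] at q1 q2 q4
    have hnk : n = m * k + l + 2 := by
      have : 2 ≤ n := by omega
      omega
    have hPd : A.dim (A.prod Q S) = n := by
      rw [h.dim_prod, q3, q1, hS1, hI1, ← hm, hnk, hk']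
      ring
    set j := i + k' * i + l * 0 + 1 with hj
    have hP : 0 < A.betti (A.prod Q S) j :=
      lt_of_lt_of_le (mul_pos q4 hS2) (h.kunneth _ _ _ _)
    obtain ⟨η, hη, hY⟩ := not_sublinear h hS3 hP
    obtain ⟨C, hC⟩ := hall η hη
    obtain ⟨Y, hY1, hY2⟩ := hY C
    have hjn : (1 / 2 + 1 / (4 * (m : ℝ))) * n ≤ (j : ℝ) := by
      have hj' : j = k * i + 1 := by rw [hj, hk']; ring
      have e : (1 / 2 + 1 / (4 * (m : ℝ))) * n = ((2 * m + 1) * n) / (4 * m) := by
        field_simp
        ring
      rw [e, div_le_iff₀ (by positivity)]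
      have h1 : (2 * m + 1) * n ≤ j * (4 * m) := by
        have h2 : k * (m + 1) ≤ k * (2 * i) := Nat.mul_le_mul_left _ (by omega)
        have h3 : n ≤ m * k + m + 1 := by omega
        have h4 : (2 * m + 1) * n ≤ (2 * m + 1) * (m * k + m + 1) := Nat.mul_le_mul_left _ h3
        have h5 : m * (2 * m + 1) ≤ m * k := Nat.mul_le_mul_left _ hk1
        have h6 : j * (4 * m) = 2 * m * (k * (2 * i)) + 4 * m := by rw [hj']; ring
        have h7 : 2 * m * (k * (m + 1)) ≤ 2 * m * (k * (2 * i)) := Nat.mul_le_mul_left _ h2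
        nlinarith
      exact_mod_cast h1
    have h7 := hC Y (by rw [hY1, hPd]) j hjn
    linarith

end Pool.Agent.Results.MP_8fe54c_gt.AsymptoticVanishing
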