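import Pool.Agent.U410.CO.Hv
import Pool.Agent.U410.CO.ThinE
import Pool.Agent.U410.CO.Deg
import Pool.Agent.N496.CV.L2Pf

/-!
# Aspherical manifolds with boundary whose fundamental group embeds in a right-angled Coxeter group

The question: let `M` be a compact aspherical `d`-manifold with or without boundary. Do the `L²`-Betti numbers of `M` in
the degrees above `d / 2` vanish? As `M` is aspherical they are the `L²`-Betti numbers of the group `K = π₁(M)`. We show
that the answer is yes for all `M` such that `K` embeds in the torsion-free group `Γ = ker (W G → (ℤ/2)^V)` of finite
index in the right-angled Coxeter group `W G` of a finite graph `G`, for all the dimensions `d ≥ 2 t`, where `t` is an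
elimination bound of `G`: the flag complex of `G` can be built from the empty complex by cones, by suspensions, and by
adding vertices to complexes with the bound `t` along links with the bound `t - 1` (`Th G t V`). The subgroup `K` may
have infinite index in `Γ`, and nothing else is assumed of `K`.

For example one can take `t = n / 2` if the flag complex `L` of `G` is a flag triangulation of the sphere of dimension
`n - 1` in the class `ThinE G n V`: (1) it has at most `5 n / 2` vertices, or at most `3 n - c`, where `c` is the number
of the join factors; or (2) `n = 2 m + 2` and there is a set `B` of vertices which contains no simplex of `L` with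
`m + 2` vertices such that the links of all the vertices outside `B` are in the class (for example the links of the
vertices in `B` can be arbitrary if no two vertices in `B` are adjacent); or (3) `n` is odd, the links of the edges are
in the class, and the non-neighbours of some vertex span a tree; or (4) it is a join of members of the class. Then `Γ`
is the fundamental group of a closed aspherical `n`-manifold `N`, and the result applies to the compact aspherical
`d`-manifolds, `d ≥ n`, whose fundamental group embeds in `π₁(N)`; for odd `n` also `d = n - 1` is possible, for
example the compact hypersurfaces with boundary in `N` and in all its covers which are aspherical and `π₁`-injective.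
One can also take `t = N - 2 n` if `L` is any flag triangulation of the `(n-1)`-sphere (or normal pseudo-manifold) with
`N` vertices. If `L` is arbitrary then it suffices that every set of at least `3 t + 3` vertices contains a vertex with
less than `3 t` neighbours in the set (`Sparse G t`), for example that all the subgraphs of `G` have a vertex of degree
less than `3 t`. So for all planar graphs `G` the answer is yes for all the compact aspherical manifolds of dimension
`d ≥ 4` whose fundamental group embeds in the commutator subgroup of `W G`. The number `3 t` is best possible: for the
complete multipartite graph with `t + 1` parts with three vertices each `Γ` is the product of `t + 1` free groups of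
rank five (Künneth formula; not formalised here).

The proof: the elimination bound of the sets `X` of vertices, `Th G t X`, is additive in the following sense: if `X` has
the bound `t` and the links, in `X ∪ Y`, of the vertices in `Y` have the bound `t - 1` then `X ∪ Y` has the bound `t`.
A set which contains no simplex with `t + 1` vertices has the bound `t` (`Th.dim`), and so does a set with less than
`3 t + 3` vertices: remove a vertex with two non-neighbours (`Th.third`). The homology of all the subgroups
`K` with coefficients in the von Neumann algebra is then computed from the links to the complex with the start file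
library `Pool.Agent.N496.CV`.
-/

set_option autoImplicit false

namespace Pool.Agent.Results.MP_8fe54c_gt.EmbeddedGroups

open Pool.Agent.W907.SG Pool.Agent.W461.SGN Pool.Agent.N496.CV
open Pool.Agent.U410.CO (ThinE Th th_few)
open Pool.Agent.W497.FS (NP lk mem_lk)

/-- Every set of at least `3 t + 3` vertices contains a vertex with less than `3 t` neighbours in the set. -/
def Sparse {V : Type} (G : SimpleGraph V) (t : ℕ) : Prop :=
  ∀ U : Finset V, 3 * t + 3 ≤ U.card → ∃ v ∈ U, {x | x ∈ U ∧ G.Adj v x}.ncard < 3 * t

theorem th_sparse {V : Type} [Fintype V] [DecidableEq V] (G : SimpleGraph V) (t : ℕ) (h : Sparse G t) :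
    Th G t (Finset.univ : Finset V) := by
  refine Th.sparse _ _ le_rfl fun U _ hU => ?_
  obtain ⟨v, hv, hlt⟩ := h U hU
  refine ⟨v, hv, ?_⟩
  have e : {x | x ∈ U ∧ G.Adj v x}.ncard = (lk G U v).card := by
    rw [← Set.ncard_coe_finset]
    congr 1
    ext x
    rw [Finset.mem_coe, mem_lk]
    rfl
  rwa [e] at hlt

/-- Let `G` be a finite graph with the set `V` of vertices and let `t` be an elimination bound of `G` (`Th G t V`), or
`t ≥ n / 2` where the flag complex of `G` is a normal pseudo-manifold of dimension `n - 1` in the class `ThinE G n V`,
or `t ≥ |V| - 2 n` where the flag complex of `G` is a normal pseudo-manifold of dimension `n - 1`, or such that every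
set of at least `3 t + 3` vertices contains a vertex with less than `3 t` neighbours in the set. Let `K` be a group
which is isomorphic to a subgroup of the kernel of `W G → (ℤ/2)^V`, for example the fundamental group of a compact
aspherical `d`-manifold, and `d ≥ 2 t`. For all `k > d / 2` the `k`-th `L²`-Betti number of `K` is zero. -/
theorem result : ∀ (t : ℕ) (V : Type) [Fintype V] [LinearOrder V] (G : SimpleGraph V),
    (Th G t (Finset.univ : Finset V) ∨ (∃ n, ThinE G n (Finset.univ : Finset V) ∧ n / 2 ≤ t) ∨
      (∃ n, NP G n (Finset.univ : Finset V) ∧ Fintype.card V ≤ 2 * n + t) ∨ Sparse G t) →
    ∀ K : Subgroup (W G), K ≤ (th G).ker → ∀ d : ℕ, 2 * t ≤ d → ∀ k : ℕ, d < 2 * k → HasL2Betti K k 0 := by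
  intro t V _ _ G hG K hK d hd k hk
  have hT : Th G t (Finset.univ : Finset V) := by
    rcases hG with h | ⟨n, h, hn⟩ | ⟨n, h, hn⟩ | h
    · exact h
    · exact h.th.le hn
    · refine (th_few h).le ?_
      rw [Finset.card_univ]
      omega
    · exact th_sparse G t h
  have h := hasL2Betti K k
  rw [Pool.Agent.U410.CO.l2_th hT K hK k (by omega)] at h
  exact h

end Pool.Agent.Results.MP_8fe54c_gt.EmbeddedGroups
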