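import Pool.Agent.U722.FF.Lb6

/-!
# `L²`-Betti numbers of compact aspherical manifolds: two-by-two matrices over `ℤ[x_1, ..., x_n]`

Okun and Schreve ask whether the `L²`-Betti numbers of a compact aspherical `m`-manifold, possibly with
boundary, vanish above the degree `m / 2`. We show that this holds whenever the fundamental group `G` has a subgroup
of finite index which is isomorphic to a subgroup of `GL_2(ℤ[x_1, ..., x_n])` for some `n` (for `m ≥ 2`; if `m = 1` then `G` is trivial or
infinite cyclic): the `L²`-Betti numbers of all such groups vanish in all degrees `k ≥ 2`. Moreover, if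
`G` is nontrivial, then the one of degree zero vanishes, `χ(G) ≤ 0`, and if `χ(G) = 0` then all the
`L²`-Betti numbers vanish.

Outline. A finitely generated torsion-free subgroup `G` acts on a tree with finitely many orbits, the
stabilizers of the edges are finitely generated abelian, those of the vertices are finitely generated
abelian or free (`Pool.Agent.U722.FF.Str`; the tree of `SL_2` over the fraction field of
`ℤ[x_1, ..., x_n]` with the valuation `- deg`). Let `U` be a ring with a homomorphism `c : G → U` such that
`1 - c g` is invertible for all `g ≠ 1`, for example the Ore localization of the group von Neumann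
algebra. If `A ≠ 1` is abelian then `H_k(A; U) = 0` for all `k`; if `A` is free then `H_k(A; U) = 0` for
`k ≥ 2`. The mapping cone of the resolutions given by `0 → ℤE → ℤV → ℤ → 0` shows that `H_k(G; U) = 0` for
`k ≥ 2`. Then one passes to directed unions of groups (torsion-free groups which are not finitely
generated), to groups with a torsion-free subgroup of finite index (transfer), and from `U` to the group
von Neumann algebra.
-/

set_option autoImplicit false

namespace Pool.Agent.Results.MP_8fe54c_gt.PolynomialMatrixGroups

open Pool.Agent.N496.CV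

/-- `G` has a subgroup of finite index which is isomorphic to a subgroup of
`GL_2(ℤ[x_1, ..., x_n])` for some `n` -/
def VirtuallyLin (G : Type) [Group G] : Prop :=
  ∃ (N : Subgroup G) (n : ℕ) (ρ : N →* GL (Fin 2) (MvPolynomial (Fin n) ℤ)),
    N.index ≠ 0 ∧ Function.Injective ρ

/-- only the unit element has finite order -/
def TorsionFree (G : Type) [Group G] : Prop := ∀ g : G, ∀ k : ℕ, 0 < k → g ^ k = 1 → g = 1

/-- the Euler characteristic: the alternating sum of the ranks in the degrees `≤ p` -/
def euler {G : Type} [Group G] (C : V7N.FreeRes G) (p : ℕ) : ℤ :=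
  ∑ i ∈ Finset.range (p + 1), (-1 : ℤ) ^ i * (C.r i : ℤ)

/-- Let `G` have a subgroup of finite index which is isomorphic to a subgroup of
`GL_2(ℤ[x_1, ..., x_n])` for some `n`. (1) The `L²`-Betti numbers of `G` vanish in all degrees `k ≥ 2`; in particular in all degrees `k > m / 2` for `m ≥ 2`. (2) Let `G` be
torsion-free and nontrivial and let `C` be a free resolution of `ℤ` over `ℤG` by finitely generated
modules of length at most `p`. Then the `L²`-Betti number of degree zero vanishes, the Euler
characteristic is `≤ 0`, and if it is zero then all the `L²`-Betti numbers vanish. -/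
theorem result :
    (∀ (G : Type) [Group G], VirtuallyLin G →
      (∀ k : ℕ, 2 ≤ k → HasL2Betti G k 0) ∧
      ∀ m k : ℕ, 2 ≤ m → m < 2 * k → HasL2Betti G k 0) ∧
    (∀ (G : Type) [Group G], VirtuallyLin G → TorsionFree G → Nontrivial G →
      ∀ (C : V7N.FreeRes G) (p : ℕ), (∀ i, p < i → C.r i = 0) →
        HasL2Betti G 0 0 ∧ euler C p ≤ 0 ∧ (euler C p = 0 → ∀ k : ℕ, HasL2Betti G k 0)) := by
  refine ⟨fun G _ ⟨N, n, ρ, hN, hρ⟩ =>
    ⟨fun k hk => U722.FF.has0 (U722.FF.L2LIN n G N hN ρ hρ k hk),
    fun m k h1 h2 => U722.FF.has0 (U722.FF.L2LIN n G N hN ρ hρ k (by omega))⟩, ?_⟩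
  rintro G _ ⟨N, n, ρ, hN, hρ⟩ hnt hG C p hp
  obtain ⟨g, hg⟩ := exists_ne (1 : G)
  have h0 : VN831.l2Betti G 0 = 0 := U722.FF.inf0 C g fun k hk h => hg (hnt g k hk h)
  have h2 : ∀ k, k ≠ 1 → VN831.l2Betti G k = 0 := by
    intro k hk
    rcases Nat.eq_zero_or_pos k with rfl | h
    · exact h0
    · exact U722.FF.L2LIN n G N hN ρ hρ k (by omega)
  obtain ⟨h3, h4⟩ := U722.FF.euler_one C p hp h2
  refine ⟨U722.FF.has0 h0, h3, fun h5 k => U722.FF.has0 ?_⟩
  by_cases hk : k = 1
  · rw [hk]
    exact h4.1 h5
  · exact h2 k hk

end Pool.Agent.Results.MP_8fe54c_gt.PolynomialMatrixGroups
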