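import Pool.Agent.U410.ES.Sm

/-!
# Betti numbers above the middle dimension: flag spheres with small join factors, or small links

Let the flag complex `L` of the finite graph `G` be a homology manifold with the homology of the sphere of dimension
`n - 1` (`HSph n G`). If `L` is a combinatorial sphere, `T` is a face of `L` and `A` is a set of vertices of the link
of `T` then the Davis complex of the right-angled Coxeter group `W (G.induce A)` thickens to a contractible manifold of
dimension `n - |T|` with boundary, on which `W (G.induce A)` acts properly and cocompactly, and the torsion-free
subgroups of finite index of `W (G.induce A)` are the fundamental groups of compact aspherical manifolds of dimension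
`n - |T|`.

We show that the `ℓ²`-homology vanishes above half of this dimension, for all `T` and `A`, and the corresponding
statement on the growth of the ordinary Betti numbers, if `L` is in the class `Sm`: it is enough that each join factor
of `L` has dimension at most three or has at most `3 e - 1` vertices, where `e - 1` is its dimension (the least
possible number), or that `n` is even and the links of the vertices are of this kind, or that `n` is odd, the links of
the edges are of this kind, and the non-neighbours of some vertex span a tree.
-/

set_option autoImplicit false

namespace Pool.Agent.Results.MP_8fe54c_gt.SmallFactors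

open Pool.Agent.W907.SG Pool.Agent.W907.SM Pool.Agent.TH652.Above Pool.Agent.Y132.SI
open Pool.Agent.U410.ES (Sm hered_of_sm)

/-- Let `L` be a flag homology sphere of dimension `n - 1` in the class `Sm`, let `T` be a face (possibly empty) and
let `A` be a set of vertices of the link of `T`. (1) There are no nonzero `ℓ²` harmonic `i`-chains on the Davis complex
of the special subgroup `W (G.induce A)` for `i > (n - |T|) / 2`. (2) For each `ε > 0` there is a finite set `E` of
nontrivial elements of `W (G.induce A)` such that for every subgroup `H` of finite index which contains no conjugate of
an element of `E`, and for all `i > (n - |T|) / 2`, the `i`-th real Betti number of `H` is at most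
`ε [W (G.induce A) : H]`. -/
theorem result : ∀ (n : ℕ) (V : Type) [Fintype V] [LinearOrder V] (G : SimpleGraph V), HSph n G →
    Sm G n (Finset.univ : Finset V) →
    ∀ T A : Finset V, G.IsClique (T : Set V) → (A : Set V) ⊆ lk G T →
    (∀ i : ℕ, n < 2 * i + T.card → L2Van (G.induce (A : Set V)) i) ∧
    ∀ ε : ℝ, 0 < ε → ∃ E : Finset (W (G.induce (A : Set V))), (1 : W (G.induce (A : Set V))) ∉ E ∧
      ∀ H : Subgroup (W (G.induce (A : Set V))), H.FiniteIndex →
        (∀ g ∈ E, ∀ x : W (G.induce (A : Set V)), x * g * x⁻¹ ∉ H) →
        ∀ i : ℕ, n < 2 * i + T.card →
          (Module.finrank ℝ (HInv (G.induce (A : Set V)) H i) : ℝ) ≤ ε * H.index := by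
  intro n V _ _ G hS hL T A hT hA
  have h : ∀ i : ℕ, n < 2 * i + T.card → L2Van (G.induce (A : Set V)) i := fun i hi =>
    hered_of_sm hS hL T hT A hA i hi
  exact ⟨h, fun ε hε => Pool.Agent.R703.MO.growth_set (G.induce (A : Set V))
    (fun i => n < 2 * i + T.card) h ε hε⟩

end Pool.Agent.Results.MP_8fe54c_gt.SmallFactors
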